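import Pool.Agent.J4H69.K1.Stm
import Pool.Agent.H370R2.Digamma

set_option autoImplicit false

/-!
Project K1 of helper69 (`MP_26ad15_nt`), job LEFT: the derivative of the reciprocal Gamma function in the left cone.
-/

namespace Pool.Agent.J4H21.K1

open Complex Filter Topology MeasureTheory
open Pool.Agent.J4H69.K1

namespace Lft

lemma norm_Gamma_le {z : ℂ} (hz : 0 < z.re) : ‖Complex.Gamma z‖ ≤ Real.Gamma z.re := by
  rw [Complex.Gamma_eq_integral hz, Complex.GammaIntegral, Real.Gamma_eq_integral hz]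
  refine (norm_integral_le_integral_norm _).trans_eq ?_
  apply setIntegral_congr_fun measurableSet_Ioi
  intro x hx
  have hx : 0 < x := hx
  simp only [norm_mul, Complex.norm_real, Real.norm_of_nonneg (Real.exp_pos _).le]
  rw [Complex.norm_cpow_eq_rpow_re_of_pos hx]
  simp

lemma norm_sin_le (z : ℂ) : ‖Complex.sin z‖ ≤ Real.exp |z.im| := by
  rw [Complex.sin]
  rw [norm_div, norm_mul, Complex.norm_I, mul_one, Complex.norm_ofNat]
  have h1 : ‖Complex.exp (-z * Complex.I) - Complex.exp (z * Complex.I)‖ ≤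
      Real.exp |z.im| + Real.exp |z.im| := by
    refine (norm_sub_le _ _).trans ?_
    rw [Complex.norm_exp, Complex.norm_exp]
    apply add_le_add
    · apply Real.exp_le_exp.2
      have : (-z * Complex.I).re = z.im := by simp
      rw [this]; exact le_abs_self _
    · apply Real.exp_le_exp.2
      have : (z * Complex.I).re = -z.im := by simp
      rw [this]; exact neg_le_abs _
  linarith

lemma real_Gamma_le {t : ℝ} (h1 : 1 ≤ t) (h2 : t ≤ 2) : Real.Gamma t ≤ 1 := by
  have := Real.convexOn_Gamma.le_max_of_mem_Icc (x := 1) (y := 2) (by simp) (by simp)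
    (z := t) ⟨h1, h2⟩
  simpa [Real.Gamma_one, Real.Gamma_two] using this

/-- a lower bound in the strip `1 ≤ Re y ≤ 2` -/
lemma base : ∃ c₀ : ℝ, 0 < c₀ ∧ ∀ y : ℂ, 1 ≤ y.re → y.re ≤ 2 →
    c₀ * Real.exp (-4 * |y.im|) ≤ ‖Complex.Gamma y‖ := by
  have hK : IsCompact (Set.Icc (1 : ℝ) 2 ×ℂ Set.Icc (-1 : ℝ) 1) :=
    isCompact_Icc.reProdIm isCompact_Icc
  have hne : (Set.Icc (1 : ℝ) 2 ×ℂ Set.Icc (-1 : ℝ) 1).Nonempty :=
    ⟨1, by rw [Complex.mem_reProdIm]; simp⟩
  have hcont : ContinuousOn (fun z : ℂ => ‖Complex.Gamma z‖)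
      (Set.Icc (1 : ℝ) 2 ×ℂ Set.Icc (-1 : ℝ) 1) := by
    intro z hz
    rw [Complex.mem_reProdIm] at hz
    have : DifferentiableAt ℂ Complex.Gamma z := by
      apply Complex.differentiableAt_Gamma
      intro m h
      have h1 := hz.1.1
      rw [h] at h1
      simp only [neg_re, natCast_re] at h1
      have : (0 : ℝ) ≤ m := Nat.cast_nonneg m
      linarith
    exact this.continuousAt.norm.continuousWithinAt
  obtain ⟨z₀, hz₀, hmin⟩ := hK.exists_isMinOn hne hcont
  have hz₀' := hz₀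
  rw [Complex.mem_reProdIm] at hz₀'
  have hpos : 0 < ‖Complex.Gamma z₀‖ := by
    rw [norm_pos_iff]
    exact Complex.Gamma_ne_zero_of_re_pos (by linarith [hz₀'.1.1])
  refine ⟨min ‖Complex.Gamma z₀‖ 1, lt_min hpos one_pos, fun y h1 h2 => ?_⟩
  have hexp : 0 < Real.exp (-4 * |y.im|) := Real.exp_pos _
  rcases le_total |y.im| 1 with him | him
  · have hy : y ∈ (Set.Icc (1 : ℝ) 2 ×ℂ Set.Icc (-1 : ℝ) 1) := by
      rw [Complex.mem_reProdIm]
      exact ⟨⟨h1, h2⟩, abs_le.mp him⟩
    have h3 : ‖Complex.Gamma z₀‖ ≤ ‖Complex.Gamma y‖ := hmin hy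
    have h4 : Real.exp (-4 * |y.im|) ≤ 1 := by
      rw [Real.exp_le_one_iff]
      have := abs_nonneg y.im
      linarith
    calc min ‖Complex.Gamma z₀‖ 1 * Real.exp (-4 * |y.im|) ≤ ‖Complex.Gamma z₀‖ * 1 :=
          mul_le_mul (min_le_left _ _) h4 hexp.le (norm_nonneg _)
      _ ≤ _ := by rwa [mul_one]
  · have him0 : y.im ≠ 0 := by
      intro h
      rw [h, abs_zero] at him
      linarith
    have hGy : Complex.Gamma y ≠ 0 := Complex.Gamma_ne_zero_of_re_pos (by linarith)
    have hG1 : Complex.Gamma (1 - y) ≠ 0 := by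
      apply Complex.Gamma_ne_zero
      intro m h
      have := congrArg Complex.im h
      simp at this
      exact him0 this
    have hrefl := Complex.Gamma_mul_Gamma_one_sub y
    have hsin : Complex.sin (Real.pi * y) ≠ 0 := by
      intro h
      rw [h, div_zero] at hrefl
      exact (mul_ne_zero hGy hG1) hrefl
    rw [eq_div_iff hsin] at hrefl
    have hn := congrArg norm hrefl
    rw [norm_mul, norm_mul, Complex.norm_real, Real.norm_eq_abs, abs_of_pos Real.pi_pos] at hn
    -- the bound for Γ(1 - y)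
    have e1 : Complex.Gamma (1 - y + 1) = (1 - y) * Complex.Gamma (1 - y) := by
      apply Complex.Gamma_add_one
      intro h
      have := congrArg Complex.im h
      simp at this
      exact him0 this
    have e2 : Complex.Gamma (1 - y + 1 + 1) = (1 - y + 1) * Complex.Gamma (1 - y + 1) := by
      apply Complex.Gamma_add_one
      intro h
      have := congrArg Complex.im h
      simp at this
      exact him0 this
    have e3 : ‖Complex.Gamma (1 - y + 1 + 1)‖ ≤ 1 := by
      refine (norm_Gamma_le (by simp; linarith)).trans (real_Gamma_le ?_ ?_)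
      · simp only [add_re, sub_re, one_re]
        linarith
      · simp only [add_re, sub_re, one_re]
        linarith
    rw [e2, e1, norm_mul, norm_mul] at e3
    have n1 : 1 ≤ ‖1 - y‖ := by
      refine him.trans ?_
      have := abs_im_le_norm (1 - y)
      simpa using this
    have n2 : 1 ≤ ‖1 - y + 1‖ := by
      refine him.trans ?_
      have := abs_im_le_norm (1 - y + 1)
      simpa using this
    have e4 : ‖Complex.Gamma (1 - y)‖ ≤ 1 := by
      refine le_trans ?_ e3
      have h0 := norm_nonneg (Complex.Gamma (1 - y))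
      calc ‖Complex.Gamma (1 - y)‖ = 1 * (1 * ‖Complex.Gamma (1 - y)‖) := by ring
        _ ≤ _ := mul_le_mul n2 (mul_le_mul_of_nonneg_right n1 h0) (by positivity) (by positivity)
    have e5 : ‖Complex.sin (Real.pi * y)‖ ≤ Real.exp (4 * |y.im|) := by
      refine (norm_sin_le _).trans ?_
      apply Real.exp_le_exp.2
      have : ((Real.pi : ℂ) * y).im = Real.pi * y.im := by simp
      rw [this, abs_mul, abs_of_pos Real.pi_pos]
      exact mul_le_mul_of_nonneg_right Real.pi_le_four (abs_nonneg _)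
    have e6 : 1 ≤ ‖Complex.Gamma y‖ * Real.exp (4 * |y.im|) := by
      calc (1 : ℝ) ≤ Real.pi := by linarith [Real.pi_gt_three]
        _ = ‖Complex.Gamma y‖ * ‖Complex.Gamma (1 - y)‖ * ‖Complex.sin (Real.pi * y)‖ := hn.symm
        _ ≤ ‖Complex.Gamma y‖ * 1 * Real.exp (4 * |y.im|) := by gcongr
        _ = _ := by ring
    have e7 : Real.exp (-4 * |y.im|) * Real.exp (4 * |y.im|) = 1 := by
      rw [← Real.exp_add]; simp
    calc min ‖Complex.Gamma z₀‖ 1 * Real.exp (-4 * |y.im|) ≤ 1 * Real.exp (-4 * |y.im|) :=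
          mul_le_mul_of_nonneg_right (min_le_right _ _) hexp.le
      _ ≤ (‖Complex.Gamma y‖ * Real.exp (4 * |y.im|)) * Real.exp (-4 * |y.im|) :=
          mul_le_mul_of_nonneg_right e6 hexp.le
      _ = ‖Complex.Gamma y‖ * (Real.exp (-4 * |y.im|) * Real.exp (4 * |y.im|)) := by ring
      _ = _ := by rw [e7, mul_one]

lemma lower {c₀ : ℝ} (h0 : 0 < c₀) (hb : ∀ y : ℂ, 1 ≤ y.re → y.re ≤ 2 →
    c₀ * Real.exp (-4 * |y.im|) ≤ ‖Complex.Gamma y‖) (m : ℕ) :
    ∀ y : ℂ, (m : ℝ) + 1 ≤ y.re → y.re ≤ m + 2 →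
      (m.factorial : ℝ) * (c₀ * Real.exp (-4 * |y.im|)) ≤ ‖Complex.Gamma y‖ := by
  induction m with
  | zero =>
    intro y h1 h2
    simpa using hb y (by simpa using h1) (by simpa using h2)
  | succ m ih =>
    intro y h1 h2
    push_cast at h1 h2
    have hm : (0 : ℝ) ≤ m := Nat.cast_nonneg m
    have h3 := ih (y - 1) (by simp only [sub_re, one_re]; linarith)
      (by simp only [sub_re, one_re]; linarith)
    have h4 : Complex.Gamma y = (y - 1) * Complex.Gamma (y - 1) := by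
      have hne : y - 1 ≠ 0 := by
        intro h
        have := congrArg Complex.re h
        simp only [sub_re, one_re, zero_re] at this
        linarith
      have := Complex.Gamma_add_one (y - 1) hne
      rwa [sub_add_cancel] at this
    rw [h4, norm_mul, Nat.factorial_succ]
    have h5 : (m : ℝ) + 1 ≤ ‖y - 1‖ := by
      refine le_trans ?_ (re_le_norm _)
      simp only [sub_re, one_re]
      linarith
    have h6 : (y - 1).im = y.im := by simp
    rw [h6] at h3
    push_cast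
    calc ((m : ℝ) + 1) * (m.factorial : ℝ) * (c₀ * Real.exp (-4 * |y.im|)) =
          ((m : ℝ) + 1) * ((m.factorial : ℝ) * (c₀ * Real.exp (-4 * |y.im|))) := by ring
      _ ≤ _ := mul_le_mul h5 h3 (by positivity) (norm_nonneg _)

/-- superpolynomial growth of `Γ(1 - x)` in the left cone -/
lemma growth (M : ℕ) : ∃ R : ℝ, ∀ x : ℂ, R ≤ ‖x‖ → x.re ≤ -(7 / 10) * ‖x‖ →
    ‖x‖ ^ M ≤ ‖Complex.Gamma (1 - x)‖ := by
  obtain ⟨c₀, h0, hb⟩ := base
  have hf : ∀ᶠ n : ℕ in atTop, Real.exp 10 ^ n ≤ (n.factorial : ℝ) := by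
    have := FloorSemiring.tendsto_pow_div_factorial_atTop (Real.exp 10)
    filter_upwards [this.eventually_lt_const zero_lt_one] with n hn
    rw [div_lt_one (by positivity)] at hn
    exact hn.le
  obtain ⟨n₀, hn₀⟩ := eventually_atTop.mp hf
  have hg : ∀ᶠ r : ℝ in atTop, r ^ M ≤ c₀ * Real.exp (-10) * Real.exp (3 * r) := by
    have := (isLittleO_pow_exp_pos_mul_atTop M (show (0:ℝ) < 3 by norm_num)).bound
      (c := c₀ * Real.exp (-10)) (by positivity)
    filter_upwards [this] with r hr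
    rw [Real.norm_eq_abs, Real.norm_eq_abs, abs_of_pos (Real.exp_pos _)] at hr
    exact (le_abs_self _).trans hr
  obtain ⟨R₁, hR₁⟩ := eventually_atTop.mp hg
  refine ⟨max R₁ (((n₀ : ℝ) + 1) * 10 / 7), fun x hR hx => ?_⟩
  have h1 := hR₁ ‖x‖ ((le_max_left _ _).trans hR)
  have h2 := (le_max_right _ _).trans hR
  obtain ⟨m, hm⟩ : ∃ m : ℕ, m = ⌊-x.re⌋₊ := ⟨_, rfl⟩
  have hn := norm_nonneg x
  have hnn : 0 ≤ -x.re := by linarith
  have hm1 : (m : ℝ) ≤ -x.re := by rw [hm]; exact Nat.floor_le hnn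
  have hm2 : -x.re < m + 1 := by rw [hm]; exact Nat.lt_floor_add_one _
  have hmn : n₀ ≤ m := by
    have : (n₀ : ℝ) < m + 1 := by linarith
    have : n₀ < m + 1 := by exact_mod_cast this
    omega
  have h3 := lower h0 hb m (1 - x) (by simp only [sub_re, one_re]; linarith)
    (by simp only [sub_re, one_re]; linarith)
  have h4 := hn₀ m hmn
  have h5 : |(1 - x).im| ≤ ‖x‖ := by
    have := abs_im_le_norm x
    simpa using this
  rw [← Real.exp_nat_mul] at h4
  calc ‖x‖ ^ M ≤ c₀ * Real.exp (-10) * Real.exp (3 * ‖x‖) := h1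
    _ = c₀ * Real.exp (-10 + 3 * ‖x‖) := by rw [Real.exp_add]; ring
    _ ≤ c₀ * Real.exp (m * 10 + -4 * |(1 - x).im|) := by
        apply mul_le_mul_of_nonneg_left _ h0.le
        apply Real.exp_le_exp.2
        linarith
    _ = Real.exp (m * 10) * (c₀ * Real.exp (-4 * |(1 - x).im|)) := by rw [Real.exp_add]; ring
    _ ≤ (m.factorial : ℝ) * (c₀ * Real.exp (-4 * |(1 - x).im|)) :=
        mul_le_mul_of_nonneg_right h4 (by positivity)
    _ ≤ _ := h3

lemma psi_bound : ∃ C : ℝ, 0 ≤ C ∧ ∀ s : ℂ, 1 ≤ s.re →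
    ‖logDeriv Complex.Gamma s‖ ≤ ‖s‖ + C := by
  have hpi := Real.pi_pos
  have hts : (0 : ℝ) ≤ ∑' n : ℕ, 1 / ((n : ℝ) + 1) ^ 2 := tsum_nonneg fun n => by positivity
  refine ⟨2 + Real.pi + 1 + 1 + ∑' n : ℕ, 1 / ((n : ℝ) + 1) ^ 2, by positivity, fun s hs => ?_⟩
  have h0 : 0 < s.re := by linarith
  rw [H370.DG.logDeriv_Gamma' h0]
  have hn1 : 1 ≤ ‖s‖ := hs.trans (re_le_norm s)
  have hn2 : 1 ≤ ‖s + 1‖ := by
    refine le_trans ?_ (re_le_norm _)
    simp only [add_re, one_re]
    linarith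
  have hn3 : 1 ≤ ‖s + 2‖ := by
    refine le_trans ?_ (re_le_norm _)
    simp only [add_re, re_ofNat]
    linarith
  have b1 : ‖1 / s‖ ≤ 1 := by
    rw [norm_div, norm_one]
    exact (div_le_one (by linarith)).mpr hn1
  have b2 : ‖1 / (s + 1)‖ ≤ 1 := by
    rw [norm_div, norm_one]
    exact (div_le_one (by linarith)).mpr hn2
  have b3 : ‖Complex.log (s + 2)‖ ≤ ‖s‖ + 2 + Real.pi := by
    have : Complex.log (s + 2) = ((Real.log ‖s + 2‖ : ℝ) : ℂ) + (arg (s + 2) : ℂ) * I := rfl
    rw [this]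
    refine (norm_add_le _ _).trans ?_
    rw [norm_mul, norm_I, mul_one, Complex.norm_real, Complex.norm_real, Real.norm_eq_abs,
      Real.norm_eq_abs]
    have h1 : |Real.log ‖s + 2‖| ≤ ‖s‖ + 2 := by
      rw [abs_of_nonneg (Real.log_nonneg hn3)]
      have a1 := Real.log_le_sub_one_of_pos (show 0 < ‖s + 2‖ by linarith)
      have a2 := norm_add_le s 2
      rw [Complex.norm_ofNat] at a2
      linarith
    exact add_le_add h1 (abs_arg_le_pi _)
  have b4 := H370.DG.norm_tsum_er h0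
  calc ‖Complex.log (s + 2) - 1 / s - 1 / (s + 1) + ∑' n, H370.DG.er n s‖
      ≤ ‖Complex.log (s + 2) - 1 / s - 1 / (s + 1)‖ + ‖∑' n, H370.DG.er n s‖ := norm_add_le _ _
    _ ≤ (‖Complex.log (s + 2) - 1 / s‖ + ‖1 / (s + 1)‖) + ‖∑' n, H370.DG.er n s‖ := by
        gcongr
        exact norm_sub_le _ _
    _ ≤ ((‖Complex.log (s + 2)‖ + ‖1 / s‖) + ‖1 / (s + 1)‖) + ‖∑' n, H370.DG.er n s‖ := by
        gcongr
        exact norm_sub_le _ _
    _ ≤ _ := by linarith

lemma rg_eq {w : ℂ} (hw : w.re < 1) :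
    rg w = Complex.sin (Real.pi * w) * Complex.Gamma (1 - w) / Real.pi := by
  unfold rg
  have h1 := Complex.Gamma_mul_Gamma_one_sub w
  have h2 : Complex.Gamma (1 - w) ≠ 0 :=
    Complex.Gamma_ne_zero_of_re_pos (by simp only [sub_re, one_re]; linarith)
  have hpi : (Real.pi : ℂ) ≠ 0 := by exact_mod_cast Real.pi_ne_zero
  by_cases hs : Complex.sin (Real.pi * w) = 0
  · rw [hs, div_zero] at h1
    have : Complex.Gamma w = 0 := (mul_eq_zero.mp h1).resolve_right h2
    rw [this, hs]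
    simp
  · have h3 : Complex.Gamma w ≠ 0 := by
      intro h
      rw [h, zero_mul] at h1
      exact (div_ne_zero hpi hs) h1.symm
    rw [eq_div_iff hs] at h1
    rw [eq_div_iff hpi, inv_mul_eq_iff_eq_mul₀ h3]
    linear_combination -h1

lemma deriv_rg {x : ℂ} (hx : x.re < 1) : deriv rg x =
    Complex.cos (Real.pi * x) * Complex.Gamma (1 - x) -
      rg x * logDeriv Complex.Gamma (1 - x) := by
  have hre : 0 < (1 - x).re := by simp only [sub_re, one_re]; linarith
  have hpi : (Real.pi : ℂ) ≠ 0 := by exact_mod_cast Real.pi_ne_zero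
  have hG : Complex.Gamma (1 - x) ≠ 0 := Complex.Gamma_ne_zero_of_re_pos hre
  have h1 : rg =ᶠ[𝓝 x] fun w => Complex.sin (Real.pi * w) * Complex.Gamma (1 - w) / Real.pi := by
    have : {w : ℂ | w.re < 1} ∈ 𝓝 x := (isOpen_lt continuous_re continuous_const).mem_nhds hx
    filter_upwards [this] with w hw
    exact rg_eq hw
  have h2 : HasDerivAt Complex.Gamma (deriv Complex.Gamma (1 - x)) (1 - x) := by
    apply DifferentiableAt.hasDerivAt
    apply Complex.differentiableAt_Gamma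
    intro m h
    rw [h] at hre
    simp only [neg_re, natCast_re] at hre
    have : (0 : ℝ) ≤ m := Nat.cast_nonneg m
    linarith
  have h3 : HasDerivAt (fun w : ℂ => Complex.Gamma (1 - w)) (deriv Complex.Gamma (1 - x) * (-1)) x :=
    h2.comp x ((hasDerivAt_id x).const_sub 1)
  have h4 : HasDerivAt (fun w : ℂ => Complex.sin (Real.pi * w))
      (Complex.cos (Real.pi * x) * Real.pi) x := by
    have h5 : HasDerivAt (fun w : ℂ => (Real.pi : ℂ) * w) Real.pi x := by
      simpa using (hasDerivAt_id x).const_mul (Real.pi : ℂ)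
    exact (Complex.hasDerivAt_sin _).comp x h5
  have h5 := (h4.mul h3).div_const (Real.pi : ℂ)
  rw [h1.deriv_eq]
  refine h5.deriv.trans ?_
  rw [rg_eq hx, logDeriv_apply]
  field_simp
  ring

end Lft

open Lft

theorem t_LEFT : S_LEFT := by
  intro c N
  obtain ⟨R₁, hR₁⟩ := growth (N + c + 2)
  obtain ⟨C, hC0, hC⟩ := psi_bound
  refine ⟨max R₁ (8 + (C + 1)), fun x hR harg hrg => ?_⟩
  have hre : x.re ≤ -(7 / 10) * ‖x‖ := by
    have e := Complex.norm_mul_cos_arg x
    rw [← Real.cos_abs] at e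
    have h1 : Real.cos |arg x| ≤ Real.cos (3 * Real.pi / 4) :=
      Real.cos_le_cos_of_nonneg_of_le_pi (by positivity) (abs_arg_le_pi x) harg.le
    have h2 : Real.cos (3 * Real.pi / 4) = -(√2 / 2) := by
      rw [show 3 * Real.pi / 4 = Real.pi - Real.pi / 4 by ring, Real.cos_pi_sub,
        Real.cos_pi_div_four]
    have h3 : 7 / 5 ≤ √2 := Real.le_sqrt_of_sq_le (by norm_num)
    have h4 : Real.cos |arg x| ≤ -(7 / 10) := by linarith
    have := mul_le_mul_of_nonneg_left h4 (norm_nonneg x)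
    linarith
  obtain ⟨r, hr⟩ : ∃ r : ℝ, r = ‖x‖ := ⟨_, rfl⟩
  have hG := hR₁ x ((le_max_left _ _).trans hR) hre
  have hr8 : 8 + (C + 1) ≤ r := by rw [hr]; exact (le_max_right _ _).trans hR
  rw [← hr] at hG hrg hre ⊢
  have hr0 : 0 < r := by linarith
  have hx1 : x.re < 1 := by linarith
  obtain ⟨G, hGdef⟩ : ∃ G : ℝ, G = ‖Complex.Gamma (1 - x)‖ := ⟨_, rfl⟩
  rw [← hGdef] at hG
  have hA : 1 ≤ r ^ N := one_le_pow₀ (by linarith)
  have hB : 1 ≤ r ^ (c + 1) := one_le_pow₀ (by linarith)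
  have hc1 : 1 ≤ r ^ c := one_le_pow₀ (by linarith)
  have hpow : r ^ (N + c + 2) = r ^ N * r ^ (c + 1) * r := by ring
  have hAB : r ^ N * r ^ (c + 1) * 8 ≤ G := by
    refine le_trans ?_ (hpow ▸ hG)
    apply mul_le_mul_of_nonneg_left (by linarith) (by positivity)
  have hAB1 : r ^ N ≤ r ^ N * r ^ (c + 1) := le_mul_of_one_le_right (by linarith) hB
  have hAB2 : r ^ (c + 1) ≤ r ^ N * r ^ (c + 1) := le_mul_of_one_le_left (by linarith) hA
  have hcB : r ^ c ≤ r ^ (c + 1) := pow_le_pow_right₀ (by linarith) (by omega)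
  -- the sine is small
  have hsin : ‖Complex.sin (Real.pi * x)‖ ≤ 1 / 2 := by
    have h1 := rg_eq hx1
    have h2 := congrArg norm h1
    rw [norm_div, norm_mul, ← hGdef, Complex.norm_real, Real.norm_eq_abs,
      abs_of_pos Real.pi_pos, eq_div_iff Real.pi_ne_zero] at h2
    have h3 : ‖Complex.sin (Real.pi * x)‖ * (8 * r ^ c) ≤ 4 * r ^ c := by
      calc ‖Complex.sin (Real.pi * x)‖ * (8 * r ^ c) ≤ ‖Complex.sin (Real.pi * x)‖ * G :=
            mul_le_mul_of_nonneg_left (by linarith) (norm_nonneg _)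
        _ = ‖rg x‖ * Real.pi := h2.symm
        _ ≤ r ^ c * 4 := mul_le_mul hrg Real.pi_le_four Real.pi_pos.le (by positivity)
        _ = 4 * r ^ c := by ring
    have h4 : 0 < 8 * r ^ c := by positivity
    have h5 : ‖Complex.sin (Real.pi * x)‖ * (8 * r ^ c) ≤ 1 / 2 * (8 * r ^ c) := by linarith
    exact le_of_mul_le_mul_right h5 h4
  have hcos : 1 / 2 ≤ ‖Complex.cos (Real.pi * x)‖ := by
    by_contra h
    push Not at h
    have h1 := Complex.sin_sq_add_cos_sq (Real.pi * x)
    have h2 := congrArg norm h1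
    rw [norm_one] at h2
    have h3 := norm_add_le (Complex.sin (Real.pi * x) ^ 2) (Complex.cos (Real.pi * x) ^ 2)
    rw [h2, norm_pow, norm_pow] at h3
    have h4 := norm_nonneg (Complex.sin (Real.pi * x))
    have h5 := norm_nonneg (Complex.cos (Real.pi * x))
    nlinarith
  -- the digamma function
  have hpsi : ‖logDeriv Complex.Gamma (1 - x)‖ ≤ 2 * r := by
    have h1 := hC (1 - x) (by simp only [sub_re, one_re]; linarith)
    have h2 := norm_sub_le (1 : ℂ) x
    rw [norm_one, ← hr] at h2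
    linarith
  rw [deriv_rg hx1]
  have h1 : ‖rg x * logDeriv Complex.Gamma (1 - x)‖ ≤ 2 * r ^ (c + 1) := by
    rw [norm_mul]
    calc ‖rg x‖ * ‖logDeriv Complex.Gamma (1 - x)‖ ≤ r ^ c * (2 * r) :=
          mul_le_mul hrg hpsi (norm_nonneg _) (by positivity)
      _ = _ := by ring
  have h2 : 1 / 2 * G ≤ ‖Complex.cos (Real.pi * x) * Complex.Gamma (1 - x)‖ := by
    rw [norm_mul, ← hGdef]
    have : 0 ≤ G := by rw [hGdef]; exact norm_nonneg _
    exact mul_le_mul_of_nonneg_right hcos this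
  have h3 := norm_sub_norm_le (Complex.cos (Real.pi * x) * Complex.Gamma (1 - x))
    (rg x * logDeriv Complex.Gamma (1 - x))
  linarith

end Pool.Agent.J4H21.K1
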