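import Pool.Agent.J4H69.K1.Stm
import Pool.Agent.H370R2.Digamma

set_option autoImplicit false

/-!
Project K1 of helper69 (`MP_26ad15_nt`), job PSI: the asymptotic expansion of the digamma function in the sector
`|arg x| ≤ 3π/4`.
-/

namespace Pool.Agent.J4H21.K1

open Complex Filter Topology
open Pool.Agent.J4H69.K1

/-- factor out `u` -/
lemma exists_factor {f : ℂ → ℂ} (hf : AnalyticAt ℂ f 0) (h0 : f 0 = 0) :
    ∃ g : ℂ → ℂ, AnalyticAt ℂ g 0 ∧ g 0 = deriv f 0 ∧ ∀ u, f u = u * g u := by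
  refine ⟨dslope f 0, ?_, dslope_same f 0, fun u => ?_⟩
  · obtain ⟨p, hp⟩ := hf
    exact ⟨_, hp.has_fpower_series_dslope_fslope⟩
  · have := sub_smul_dslope f 0 u
    rw [sub_zero, h0, sub_zero, smul_eq_mul] at this
    exact this.symm

/-- the difference `a_N(x+1) - a_N(x) + log(1+1/x) - 1/x` as a function of `u = 1/x` -/
noncomputable def del (N : ℕ) (d : ℕ → ℂ) (u : ℂ) : ℂ :=
  Complex.log (1 + u) - u + ∑ j ∈ Finset.range N, d j * ((u / (1 + u)) ^ (j + 1) - u ^ (j + 1))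

lemma coeffs (N : ℕ) : ∃ (d : ℕ → ℂ) (g : ℂ → ℂ), AnalyticAt ℂ g 0 ∧ ∀ u : ℂ, 1 + u ≠ 0 →
    del N d u = u ^ (N + 2) * g u := by
  induction N with
  | zero =>
    have h1 : AnalyticAt ℂ (fun u : ℂ => Complex.log (1 + u)) 0 := by
      apply AnalyticAt.clog (by fun_prop)
      simp
    obtain ⟨g1, hg1, hg10, hg1u⟩ := exists_factor h1 (by simp)
    have hd : deriv (fun u : ℂ => Complex.log (1 + u)) 0 = 1 := by
      have h2 : HasDerivAt (fun u : ℂ => 1 + u) 1 0 := by
        simpa using (hasDerivAt_id (0:ℂ)).const_add 1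
      have : HasDerivAt (fun u : ℂ => Complex.log (1 + u)) (1 / (1 + 0)) 0 :=
        h2.clog (by simp)
      rw [this.deriv]; simp
    obtain ⟨g2, hg2, -, hg2u⟩ := exists_factor (f := fun u => g1 u - 1) (by fun_prop)
      (by rw [hg10, hd]; simp)
    refine ⟨0, g2, hg2, fun u _ => ?_⟩
    have e1 := hg1u u
    have e2 := hg2u u
    simp only [del, Finset.range_zero, Finset.sum_empty, add_zero, zero_add]
    linear_combination e1 + u * e2
  | succ N ih =>
    obtain ⟨d, g, hg, hgu⟩ := ih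
    have h1 : AnalyticAt ℂ (fun u : ℂ => ((1 + u) ^ (N + 1))⁻¹ - 1) 0 := by
      apply AnalyticAt.sub _ analyticAt_const
      apply AnalyticAt.inv (by fun_prop)
      simp
    obtain ⟨h, hh, hh0, hhu⟩ := exists_factor h1 (by simp)
    have hd : deriv (fun u : ℂ => ((1 + u) ^ (N + 1))⁻¹ - 1) 0 = -((N : ℂ) + 1) := by
      have h2 : HasDerivAt (fun u : ℂ => 1 + u) 1 0 := by
        simpa using (hasDerivAt_id (0:ℂ)).const_add 1
      have h3 := ((h2.pow (N + 1)).inv (by simp)).sub_const 1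
      have h4 := h3.deriv
      simp only [Pi.inv_apply, Pi.pow_apply] at h4
      refine Eq.trans ?_ (h4.trans ?_)
      · rfl
      · simp
    have hN : ((N : ℂ) + 1) ≠ 0 := by exact_mod_cast Nat.succ_ne_zero N
    obtain ⟨g2, hg2, -, hg2u⟩ := exists_factor (f := fun u => g u + (g 0 / (N + 1)) * h u)
      (by fun_prop) (by rw [hh0, hd]; field_simp; ring)
    refine ⟨fun j => if j < N then d j else g 0 / (N + 1), g2, hg2, fun u hu => ?_⟩
    have e1 := hgu u hu
    have e2 := hhu u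
    have e3 := hg2u u
    have e4 : ∑ j ∈ Finset.range N, (if j < N then d j else g 0 / (N + 1)) *
        ((u / (1 + u)) ^ (j + 1) - u ^ (j + 1)) =
        ∑ j ∈ Finset.range N, d j * ((u / (1 + u)) ^ (j + 1) - u ^ (j + 1)) :=
      Finset.sum_congr rfl fun j hj => by rw [if_pos (Finset.mem_range.mp hj)]
    have e5 : (u / (1 + u)) ^ (N + 1) - u ^ (N + 1) = u ^ (N + 1) * (((1 + u) ^ (N + 1))⁻¹ - 1) := by
      rw [div_pow]; ring
    simp only [del] at e1 ⊢
    rw [Finset.sum_range_succ, e4, if_neg (lt_irrefl N), e5]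
    linear_combination e1 + (g 0 / (N + 1)) * u ^ (N + 1) * e2 + u ^ (N + 2) * e3

/-- the region -/
def reg (x : ℂ) : Prop := -(3 / 4) * ‖x‖ ≤ x.re

lemma reg_of_arg {x : ℂ} (hx : |Complex.arg x| ≤ 3 * Real.pi / 4) : reg x := by
  unfold reg
  rw [← Complex.norm_mul_cos_arg x, ← Real.cos_abs]
  have h1 : Real.cos (3 * Real.pi / 4) ≤ Real.cos |Complex.arg x| :=
    Real.cos_le_cos_of_nonneg_of_le_pi (abs_nonneg _) (by linarith [Real.pi_pos]) hx
  have h2 : Real.cos (3 * Real.pi / 4) = -(√2 / 2) := by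
    rw [show 3 * Real.pi / 4 = Real.pi - Real.pi / 4 by ring, Real.cos_pi_sub,
      Real.cos_pi_div_four]
  have h3 : √2 ≤ 3 / 2 := by
    rw [Real.sqrt_le_left (by norm_num)]
    norm_num
  have h4 : -(3 / 4) ≤ Real.cos |Complex.arg x| := by linarith
  nlinarith [norm_nonneg x]

lemma reg_add {x : ℂ} (hx : reg x) (k : ℕ) : reg (x + k) := by
  unfold reg at *
  have h1 : ‖x‖ ≤ ‖x + k‖ + k := by
    have := norm_sub_le (x + k) (k : ℂ)
    rw [add_sub_cancel_right, Complex.norm_natCast] at this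
    exact this
  have h2 : (x + (k : ℂ)).re = x.re + k := by simp
  rw [h2]
  have : (0 : ℝ) ≤ k := Nat.cast_nonneg k
  linarith

lemma norm_add_ge {x : ℂ} (hx : reg x) (k : ℕ) : (1 / 4) * (‖x‖ + k) ≤ ‖x + k‖ := by
  unfold reg at hx
  have hk : (0 : ℝ) ≤ k := Nat.cast_nonneg k
  apply le_of_sq_le_sq _ (norm_nonneg _)
  have h1 : ‖x + k‖ ^ 2 = ‖x‖ ^ 2 + 2 * k * x.re + k ^ 2 := by
    rw [Complex.sq_norm, Complex.sq_norm, Complex.normSq_apply, Complex.normSq_apply]
    simp only [add_re, natCast_re, add_im, natCast_im, add_zero]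
    ring
  rw [h1]
  have h2 : -(3 / 2) * ‖x‖ * k ≤ 2 * k * x.re := by nlinarith
  nlinarith [sq_nonneg (‖x‖ - k), norm_nonneg x, mul_nonneg (norm_nonneg x) hk]

lemma reg_ne {x : ℂ} (hx : reg x) (h0 : x ≠ 0) (m : ℕ) : x ≠ -m := by
  rintro rfl
  unfold reg at hx
  rw [norm_neg, Complex.norm_natCast] at hx
  simp only [neg_re, natCast_re] at hx
  have : (0 : ℝ) < m := by
    rcases Nat.eq_zero_or_pos m with rfl | h
    · simp at h0
    · exact_mod_cast h
  linarith

lemma reg_slit {x : ℂ} (hx : reg x) (h0 : x ≠ 0) : x ∈ slitPlane := by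
  rw [Complex.mem_slitPlane_iff]
  by_contra h
  push Not at h
  obtain ⟨h1, h2⟩ := h
  unfold reg at hx
  have h3 : ‖x‖ = -x.re := by
    have : x = (x.re : ℂ) := Complex.ext (by simp) (by simp [h2])
    rw [this, Complex.norm_real, Real.norm_eq_abs]
    simp [abs_of_nonpos h1]
  have h4 : 0 < ‖x‖ := norm_pos_iff.mpr h0
  linarith

lemma log_succ {x : ℂ} (hx : x ∈ slitPlane) (h1 : 1 < ‖x‖) :
    Complex.log (x + 1) = Complex.log x + Complex.log (1 + x⁻¹) := by
  have hx0 : x ≠ 0 := slitPlane_ne_zero hx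
  have hinv : ‖x⁻¹‖ < 1 := by
    rw [norm_inv]
    exact inv_lt_one_of_one_lt₀ h1
  have hre : 0 < (1 + x⁻¹).re := by
    have := (abs_le.mp (abs_re_le_norm x⁻¹)).1
    rw [add_re, one_re]
    linarith
  have hne : 1 + x⁻¹ ≠ 0 := by
    intro h
    rw [h] at hre
    simp at hre
  have hmul : x + 1 = x * (1 + x⁻¹) := by field_simp
  rw [hmul]
  have a2 := abs_arg_lt_pi_div_two_iff.mpr (Or.inl hre)
  rw [abs_lt] at a2
  have him : (1 + x⁻¹).im = -x.im / normSq x := by
    rw [add_im, one_im, zero_add, inv_im]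
  have hns : 0 < normSq x := normSq_pos.mpr hx0
  have hpi := Real.pi_pos
  apply Complex.log_mul hx0 hne
  rcases le_or_gt 0 x.im with h | h
  · have b1 : 0 ≤ arg x := arg_nonneg_iff.mpr h
    have b2 : arg x ≤ Real.pi := arg_le_pi x
    have b3 : arg (1 + x⁻¹) ≤ 0 := by
      rcases h.eq_or_lt with h' | h'
      · have : arg (1 + x⁻¹) = 0 := by
          rw [arg_eq_zero_iff]
          exact ⟨hre.le, by rw [him, ← h']; simp⟩
        exact this.le
      · apply le_of_lt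
        rw [arg_neg_iff, him]
        exact div_neg_of_neg_of_pos (by linarith) hns
    exact ⟨by linarith [a2.1], by linarith⟩
  · have b1 : arg x < 0 := arg_neg_iff.mpr h
    have b2 : -Real.pi < arg x := neg_pi_lt_arg x
    have b3 : 0 ≤ arg (1 + x⁻¹) := by
      rw [arg_nonneg_iff, him]
      exact div_nonneg (by linarith) hns.le
    exact ⟨by linarith, by linarith [a2.2]⟩

/-- `ψ(s + m) - log(s + m) → 0` -/
lemma tendsto_psi {s : ℂ} (hs : 0 < s.re) :
    Tendsto (fun m : ℕ => logDeriv Gamma (s + m) - Complex.log (s + m)) atTop (𝓝 0) := by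
  have hkey : ∀ m : ℕ, logDeriv Gamma (s + m) - Complex.log (s + m) =
      (Complex.log (s + m + 1 + 1) - Complex.log (s + m + 1) - 1 / (s + m + 1)) +
      (Complex.log (s + m + 1) - Complex.log (s + m) - 1 / (s + m)) +
      ∑' n, H370.DG.er (n + m) s := by
    intro m
    have hre : 0 < (s + m).re := by
      simp only [add_re, natCast_re]
      positivity
    rw [H370.DG.logDeriv_Gamma' hre]
    have e1 : ∀ n : ℕ, H370.DG.er n (s + m) = H370.DG.er (n + m) s := by
      intro n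
      unfold H370.DG.er
      push_cast
      rw [show s + (m : ℂ) + (n + 3) = s + (n + m + 3) by ring,
        show s + (m : ℂ) + (n + 2) = s + (n + m + 2) by ring]
    simp_rw [e1]
    rw [show s + (m : ℂ) + 2 = s + m + 1 + 1 by ring]
    ring
  have hnorm : Tendsto (fun m : ℕ => 1 / ((m : ℝ)) ^ 2) atTop (𝓝 0) := by
    have := tendsto_one_div_atTop_nhds_zero_nat (𝕜 := ℝ)
    have h2 := this.pow 2
    simpa using h2
  have h1 : Tendsto (fun m : ℕ => (Complex.log (s + m + 1) - Complex.log (s + m) - 1 / (s + m)))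
      atTop (𝓝 0) := by
    refine squeeze_zero_norm' ?_ hnorm
    filter_upwards [eventually_ge_atTop 2] with m hm
    have hm' : (2 : ℝ) ≤ m := by exact_mod_cast hm
    have hre : (m : ℝ) ≤ (s + m).re := by
      simp only [add_re, natCast_re]
      linarith
    refine (H370.DG.log_step (z := s + m) (by linarith)).trans ?_
    apply one_div_le_one_div_of_le (by positivity)
    exact pow_le_pow_left₀ (by positivity) (hre.trans (re_le_norm _)) 2
  have h2 : Tendsto (fun m : ℕ => (Complex.log (s + m + 1 + 1) - Complex.log (s + m + 1) -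
      1 / (s + m + 1))) atTop (𝓝 0) := by
    refine squeeze_zero_norm' ?_ hnorm
    filter_upwards [eventually_ge_atTop 2] with m hm
    have hm' : (2 : ℝ) ≤ m := by exact_mod_cast hm
    have hre : (m : ℝ) ≤ (s + m + 1).re := by
      simp only [add_re, natCast_re, one_re]
      linarith
    refine (H370.DG.log_step (z := s + m + 1) (by linarith)).trans ?_
    apply one_div_le_one_div_of_le (by positivity)
    exact pow_le_pow_left₀ (by positivity) (hre.trans (re_le_norm _)) 2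
  have h3 : Tendsto (fun m : ℕ => ∑' n, H370.DG.er (n + m) s) atTop (𝓝 0) :=
    tendsto_sum_nat_add (fun n => H370.DG.er n s)
  have h4 := (h2.add h1).add h3
  simp only [add_zero] at h4
  exact h4.congr fun m => (hkey m).symm

/-- the error term -/
noncomputable def EN (N : ℕ) (d : ℕ → ℂ) (x : ℂ) : ℂ :=
  logDeriv Complex.Gamma x - (Complex.log x + ∑ j ∈ Finset.range N, d j / x ^ (j + 1))

lemma EN_step (N : ℕ) (d : ℕ → ℂ) {x : ℂ} (hx : reg x) (h1 : 1 < ‖x‖) :
    EN N d x = del N d x⁻¹ + EN N d (x + 1) := by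
  have hx0 : x ≠ 0 := norm_pos_iff.mp (by linarith)
  have hx1 : x + 1 ≠ 0 := by
    have := reg_ne hx hx0 1
    intro h
    apply this
    push_cast
    linear_combination h
  have e1 : logDeriv Gamma (x + 1) = logDeriv Gamma x + x⁻¹ :=
    Complex.digamma_apply_add_one x (reg_ne hx hx0)
  have e2 := log_succ (reg_slit hx hx0) h1
  unfold EN del
  rw [e1, e2]
  have e3 : x⁻¹ / (1 + x⁻¹) = (x + 1)⁻¹ := by field_simp
  rw [e3]
  have e4 : ∑ j ∈ Finset.range N, d j * ((x + 1)⁻¹ ^ (j + 1) - x⁻¹ ^ (j + 1)) =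
      ∑ j ∈ Finset.range N, d j / (x + 1) ^ (j + 1) - ∑ j ∈ Finset.range N, d j / x ^ (j + 1) := by
    rw [← Finset.sum_sub_distrib]
    refine Finset.sum_congr rfl fun j _ => ?_
    rw [inv_pow, inv_pow, div_eq_mul_inv, div_eq_mul_inv]
    ring
  rw [e4]
  ring

lemma EN_sum (N : ℕ) (d : ℕ → ℂ) {x : ℂ} (hx : reg x) (h4 : 4 < ‖x‖) (m : ℕ) :
    EN N d x = ∑ k ∈ Finset.range m, del N d (x + k)⁻¹ + EN N d (x + m) := by
  induction m with
  | zero => simp
  | succ m ih =>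
    rw [ih, Finset.sum_range_succ, EN_step N d (reg_add hx m)]
    · push_cast
      rw [show x + ((m : ℂ) + 1) = x + m + 1 by ring]
      ring
    · have := norm_add_ge hx m
      have hm : (0 : ℝ) ≤ m := Nat.cast_nonneg m
      linarith

lemma EN_tendsto (N : ℕ) (d : ℕ → ℂ) (x : ℂ) :
    Tendsto (fun m : ℕ => EN N d (x + m)) atTop (𝓝 0) := by
  -- a shift with positive real part
  obtain ⟨m₀, hm₀⟩ := exists_nat_gt (-x.re)
  have hs : 0 < (x + m₀).re := by
    simp only [add_re, natCast_re]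
    linarith
  have h1 : Tendsto (fun m : ℕ => logDeriv Gamma (x + m) - Complex.log (x + m)) atTop (𝓝 0) := by
    rw [← tendsto_add_atTop_iff_nat m₀]
    refine (tendsto_psi hs).congr fun m => ?_
    push_cast
    rw [show x + (m₀ : ℂ) + m = x + (m + m₀) by ring]
  have hinv : Tendsto (fun m : ℕ => (x + m)⁻¹) atTop (𝓝 0) := by
    have h : Tendsto (fun m : ℕ => ‖x + (m : ℂ)‖) atTop atTop := by
      have h0 : Tendsto (fun m : ℕ => (m : ℝ) + -‖x‖) atTop atTop :=
        tendsto_atTop_add_const_right _ _ tendsto_natCast_atTop_atTop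
      refine tendsto_atTop_mono (fun m => ?_) h0
      have := norm_sub_le (x + m) x
      rw [add_sub_cancel_left, Complex.norm_natCast] at this
      linarith
    rw [tendsto_zero_iff_norm_tendsto_zero]
    simp_rw [norm_inv]
    exact tendsto_inv_atTop_zero.comp h
  have h2 : Tendsto (fun m : ℕ => ∑ j ∈ Finset.range N, d j / (x + m) ^ (j + 1)) atTop (𝓝 0) := by
    have : Tendsto (fun m : ℕ => ∑ j ∈ Finset.range N, d j * ((x + m)⁻¹) ^ (j + 1)) atTop
        (𝓝 (∑ j ∈ Finset.range N, d j * (0 : ℂ) ^ (j + 1))) :=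
      tendsto_finsetSum _ fun j _ => (hinv.pow (j + 1)).const_mul (d j)
    simp only [pow_succ, mul_zero, Finset.sum_const_zero] at this
    refine this.congr fun m => Finset.sum_congr rfl fun j _ => ?_
    rw [← pow_succ, inv_pow, div_eq_mul_inv]
  have h3 := h1.sub h2
  rw [sub_zero] at h3
  refine h3.congr fun m => ?_
  unfold EN
  ring

/-- `∑ (r + k)^(-(N+2)) ≤ 2 r^(-(N+1))` -/
lemma sum_bound {r : ℝ} (hr : 1 ≤ r) (N m : ℕ) :
    ∑ k ∈ Finset.range m, 1 / (r + k) ^ (N + 2) ≤ 2 / r ^ (N + 1) := by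
  have h1 : ∀ m : ℕ, ∑ k ∈ Finset.range m, 1 / (r + k) ^ 2 ≤ 1 / (r - 1 / 2) - 1 / (r + m - 1 / 2) := by
    intro m
    induction m with
    | zero => simp
    | succ m ih =>
      rw [Finset.sum_range_succ]
      have hm : (0 : ℝ) ≤ m := Nat.cast_nonneg m
      have h2 : 1 / (r + m) ^ 2 ≤ 1 / (r + m - 1 / 2) - 1 / (r + (m + 1 : ℕ) - 1 / 2) := by
        push_cast
        rw [div_sub_div _ _ (by linarith) (by linarith), div_le_div_iff₀ (by positivity)
          (mul_pos (by linarith) (by linarith))]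
        nlinarith
      linarith
  have h2 : ∑ k ∈ Finset.range m, 1 / (r + k) ^ (N + 2) ≤
      ∑ k ∈ Finset.range m, 1 / r ^ N * (1 / (r + k) ^ 2) := by
    refine Finset.sum_le_sum fun k _ => ?_
    have hk : (0 : ℝ) ≤ k := Nat.cast_nonneg k
    rw [one_div_mul_one_div]
    apply one_div_le_one_div_of_le (by positivity)
    rw [pow_add]
    apply mul_le_mul_of_nonneg_right _ (by positivity)
    exact pow_le_pow_left₀ (by positivity) (by linarith) N
  refine h2.trans ?_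
  rw [← Finset.mul_sum]
  have h3 := h1 m
  have hm : (0 : ℝ) ≤ m := Nat.cast_nonneg m
  have h4 : 0 ≤ 1 / (r + m - 1 / 2) := by
    apply div_nonneg zero_le_one
    linarith
  have h5 : 1 / (r - 1 / 2) ≤ 2 / r := by
    rw [div_le_div_iff₀ (by linarith) (by linarith)]
    linarith
  calc 1 / r ^ N * ∑ k ∈ Finset.range m, 1 / (r + k) ^ 2 ≤ 1 / r ^ N * (2 / r) := by
        apply mul_le_mul_of_nonneg_left _ (by positivity)
        linarith
    _ = 2 / r ^ (N + 1) := by rw [pow_succ]; field_simp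

theorem t_PSI : S_PSI := by
  intro N
  obtain ⟨d, g, hg, hgu⟩ := coeffs N
  -- bound for `g`
  obtain ⟨ρ, hρ, hρ2⟩ : ∃ ρ : ℝ, 0 < ρ ∧ ∀ u : ℂ, ‖u‖ < ρ → ‖g u‖ ≤ ‖g 0‖ + 1 := by
    have h1 : ∀ᶠ u in 𝓝 (0 : ℂ), ‖g u‖ < ‖g 0‖ + 1 :=
      hg.continuousAt.norm.eventually_lt_const (by linarith)
    obtain ⟨ρ, hρ, h⟩ := Metric.eventually_nhds_iff.mp h1
    exact ⟨ρ, hρ, fun u hu => (h (by rwa [dist_zero_right])).le⟩
  refine ⟨d, (‖g 0‖ + 1) * 4 ^ (N + 2) * 2, 5 + 5 / ρ, by positivity, fun x hR harg => ?_⟩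
  have hx := reg_of_arg harg
  have hρ0 : 0 < 5 / ρ := by positivity
  have hx4 : 4 < ‖x‖ := by linarith
  have hx0 : 0 < ‖x‖ := by linarith
  have hterm : ∀ k : ℕ, ‖del N d (x + k)⁻¹‖ ≤
      (‖g 0‖ + 1) * 4 ^ (N + 2) * (1 / (‖x‖ + k) ^ (N + 2)) := by
    intro k
    have hk : (0 : ℝ) ≤ k := Nat.cast_nonneg k
    have h1 := norm_add_ge hx k
    have h2 : 0 < ‖x + k‖ := by linarith
    have hne : x + k ≠ 0 := norm_pos_iff.mp h2
    have h3 : 1 + (x + k)⁻¹ ≠ 0 := by
      intro h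
      have h4 := reg_ne (reg_add hx k) hne 1
      apply h4
      push_cast
      field_simp at h
      linear_combination h
    rw [hgu _ h3, norm_mul, norm_pow, norm_inv]
    have h5 : (‖x + k‖)⁻¹ ≤ 4 * (1 / (‖x‖ + k)) := by
      rw [inv_le_comm₀ h2 (by positivity)]
      refine le_trans (le_of_eq ?_) h1
      field_simp
    have h6 : ‖g (x + k)⁻¹‖ ≤ ‖g 0‖ + 1 := by
      apply hρ2
      rw [norm_inv, inv_lt_comm₀ h2 hρ]
      have h7 : ρ⁻¹ = (1 / 5) * (5 / ρ) := by field_simp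
      rw [h7]
      nlinarith
    calc (‖x + k‖)⁻¹ ^ (N + 2) * ‖g (x + k)⁻¹‖ ≤
          (4 * (1 / (‖x‖ + k))) ^ (N + 2) * (‖g 0‖ + 1) :=
          mul_le_mul (pow_le_pow_left₀ (by positivity) h5 _) h6 (norm_nonneg _) (by positivity)
      _ = _ := by rw [mul_pow, one_div, inv_pow, one_div]; ring
  have hfin : ∀ m : ℕ, ‖EN N d x‖ ≤ (‖g 0‖ + 1) * 4 ^ (N + 2) * 2 / ‖x‖ ^ (N + 1) +
      ‖EN N d (x + m)‖ := by
    intro m
    rw [EN_sum N d hx hx4 m]
    refine (norm_add_le _ _).trans ?_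
    apply add_le_add_left
    calc ‖∑ k ∈ Finset.range m, del N d (x + k)⁻¹‖ ≤
          ∑ k ∈ Finset.range m, ‖del N d (x + k)⁻¹‖ := norm_sum_le _ _
      _ ≤ ∑ k ∈ Finset.range m, (‖g 0‖ + 1) * 4 ^ (N + 2) * (1 / (‖x‖ + k) ^ (N + 2)) :=
          Finset.sum_le_sum fun k _ => hterm k
      _ = (‖g 0‖ + 1) * 4 ^ (N + 2) * ∑ k ∈ Finset.range m, 1 / (‖x‖ + k) ^ (N + 2) := by
          rw [Finset.mul_sum]
      _ ≤ (‖g 0‖ + 1) * 4 ^ (N + 2) * (2 / ‖x‖ ^ (N + 1)) :=
          mul_le_mul_of_nonneg_left (sum_bound (by linarith) N m) (by positivity)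
      _ = _ := by ring
  have hlim : Tendsto (fun m : ℕ => (‖g 0‖ + 1) * 4 ^ (N + 2) * 2 / ‖x‖ ^ (N + 1) +
      ‖EN N d (x + m)‖) atTop (𝓝 ((‖g 0‖ + 1) * 4 ^ (N + 2) * 2 / ‖x‖ ^ (N + 1) + 0)) := by
    apply tendsto_const_nhds.add
    simpa using (EN_tendsto N d x).norm
  rw [add_zero] at hlim
  exact ge_of_tendsto' hlim hfin

end Pool.Agent.J4H21.K1
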